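import Pool.Agent.Work.MP_d899bc_co.Joined

set_option autoImplicit false

namespace Pool.Agent.Results.MP_d899bc_co.FewLines

open Pool.Agent.Work.MP_d899bc_co

/-- A plane node set of degree `n` whose fundamental polynomials are all products of `n` lines
from a family of `m` lines with `m (m - 1) < 3 (n + 1) (n + 2)` has at least two maximal lines. -/
theorem result (n : ℕ) (hn : 1 ≤ n) (X : Finset (ℝ × ℝ)) (hcard : X.card = (n + 2).choose 2)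
    (hcorr : ∀ p : MvPolynomial (Fin 2) ℝ, p.totalDegree ≤ n →
      (∀ x ∈ X, MvPolynomial.eval ![x.1, x.2] p = 0) → p = 0)
    (𝓛 : Finset (Set (ℝ × ℝ)))
    (hlines : ∀ ℓ ∈ 𝓛, ∃ a b c : ℝ, (a ≠ 0 ∨ b ≠ 0) ∧ ℓ = {q | a * q.1 + b * q.2 = c})
    (hgc : ∀ A ∈ X, ∃ U ⊆ 𝓛, U.card = n ∧ (∀ ℓ ∈ U, A ∉ ℓ) ∧
      ∀ B ∈ X, B ≠ A → ∃ ℓ ∈ U, B ∈ ℓ)
    (hfew : 𝓛.card * (𝓛.card - 1) < 3 * (n + 1) * (n + 2)) :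
    ∃ ℓ ∈ 𝓛, ∃ ℓ' ∈ 𝓛, ℓ ≠ ℓ' ∧ {q | q ∈ X ∧ q ∈ ℓ}.ncard = n + 1 ∧
      {q | q ∈ X ∧ q ∈ ℓ'}.ncard = n + 1 := by
  classical
  obtain ⟨t, U, D⟩ := exists_data n X hcorr 𝓛 hlines hgc
  have hline : ∀ ℓ ∈ 𝓛, ∀ ℓ' ∈ 𝓛, ∀ A C : ℝ × ℝ, A ≠ C → A ∈ ℓ → C ∈ ℓ → A ∈ ℓ' → C ∈ ℓ' →
      ℓ = ℓ' := fun ℓ hℓ ℓ' hℓ' A C hAC =>
    lines_eq ℓ ℓ' (hlines ℓ hℓ) (hlines ℓ' hℓ') A C hAC
  have hS : ∀ (ℓ : Set (ℝ × ℝ)) (C : ℝ × ℝ), C ∈ (X.filter fun q => q ∈ ℓ) ↔ C ∈ X ∧ C ∈ ℓ := fun ℓ C =>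
    Finset.mem_filter
  have hT : ∀ (A : ℝ × ℝ) (ℓ : Set (ℝ × ℝ)), ℓ ∈ (𝓛.filter fun ℓ => A ∈ ℓ) ↔ ℓ ∈ 𝓛 ∧ A ∈ ℓ := fun A ℓ =>
    Finset.mem_filter
  have hncard : ∀ ℓ : Set (ℝ × ℝ), {q | q ∈ X ∧ q ∈ ℓ}.ncard = (X.filter fun q => q ∈ ℓ).card := by
    intro ℓ
    rw [← Set.ncard_coe_finset]
    congr 1
    ext q
    simp
  by_cases h3 : ∀ A ∈ X, 3 ≤ (𝓛.filter fun ℓ => A ∈ ℓ).card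
  · have := few_lines hcard hline (fun A => 𝓛.filter fun ℓ => A ∈ ℓ) hT h3
    omega
  · push Not at h3
    obtain ⟨A, hA, hlt⟩ := h3
    obtain ⟨ℓ, hℓ, ℓ', hℓ', hne, -, -, h1, h2⟩ := two_lines D hn hline
      (fun ℓ => X.filter fun q => q ∈ ℓ) hS (fun A => 𝓛.filter fun ℓ => A ∈ ℓ) hT A hA (by omega)
    exact ⟨ℓ, hℓ, ℓ', hℓ', hne, by rw [hncard]; exact h1, by rw [hncard]; exact h2⟩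

end Pool.Agent.Results.MP_d899bc_co.FewLines
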