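import Pool.Agent.Work.MP_d899bc_co.Joined

set_option autoImplicit false

namespace Pool.Agent.Results.MP_d899bc_co.JoinedNodes

open Pool.Agent.Work.MP_d899bc_co

/-- In a plane node set of degree `n` whose fundamental polynomials are products of lines, every
node is joined to at least `2 n` other nodes by lines used by fundamental polynomials. -/
theorem result (n : ℕ) (X : Finset (ℝ × ℝ))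
    (hcorr : ∀ p : MvPolynomial (Fin 2) ℝ, p.totalDegree ≤ n →
      (∀ x ∈ X, MvPolynomial.eval ![x.1, x.2] p = 0) → p = 0)
    (𝓛 : Finset (Set (ℝ × ℝ)))
    (hlines : ∀ ℓ ∈ 𝓛, ∃ a b c : ℝ, (a ≠ 0 ∨ b ≠ 0) ∧ ℓ = {q | a * q.1 + b * q.2 = c})
    (hgc : ∀ A ∈ X, ∃ U ⊆ 𝓛, U.card = n ∧ (∀ ℓ ∈ U, A ∉ ℓ) ∧
      ∀ B ∈ X, B ≠ A → ∃ ℓ ∈ U, B ∈ ℓ) (A : ℝ × ℝ) (hA : A ∈ X) :
    2 * n ≤ {C | C ∈ X ∧ C ≠ A ∧ ∃ ℓ ∈ 𝓛, A ∈ ℓ ∧ C ∈ ℓ}.ncard := by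
  classical
  obtain ⟨t, U, D⟩ := exists_data n X hcorr 𝓛 hlines hgc
  have hline : ∀ ℓ ∈ 𝓛, ∀ ℓ' ∈ 𝓛, ∀ A C : ℝ × ℝ, A ≠ C → A ∈ ℓ → C ∈ ℓ → A ∈ ℓ' → C ∈ ℓ' →
      ℓ = ℓ' := fun ℓ hℓ ℓ' hℓ' A C hAC =>
    lines_eq ℓ ℓ' (hlines ℓ hℓ) (hlines ℓ' hℓ') A C hAC
  have h : {C | C ∈ X ∧ C ≠ A ∧ ∃ ℓ ∈ 𝓛, A ∈ ℓ ∧ C ∈ ℓ}.ncard =
      (X.filter fun C => C ≠ A ∧ ∃ ℓ ∈ 𝓛, A ∈ ℓ ∧ C ∈ ℓ).card := by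
    rw [← Set.ncard_coe_finset]
    congr 1
    ext q
    simp
  rw [h]
  exact joined D hline A hA _ fun C hC hCA hex =>
    Finset.mem_filter.mpr ⟨hC, hCA, hex⟩

end Pool.Agent.Results.MP_d899bc_co.JoinedNodes
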