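import Pool.Agent.Work.MP_d899bc_co.Half.Main

set_option autoImplicit false

namespace Pool.Agent.Results.MP_d899bc_co.RichLines

open Pool.Agent.Work.MP_d899bc_co.Half

/-- For every `ε > 0` there is `c > 0` such that for all `n ≥ 1` and every set `X` of `C(n+2,2)`
points of the plane with at most `n + 1` points on each line: for all but at most `ε |X|` points
`A` of `X`, every family of at most `n` lines missing `A` and covering `X` minus `A` has at least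
`c n` lines with at least `(1/2+c) n` points of `X`. -/
theorem result (ε : ℝ) (hε : 0 < ε) : ∃ c : ℝ, 0 < c ∧ ∀ n : ℕ, 1 ≤ n → ∀ X : Finset (ℝ × ℝ),
    X.card = (n + 2).choose 2 →
    (∀ a b d : ℝ, (a ≠ 0 ∨ b ≠ 0) → {q | q ∈ X ∧ a * q.1 + b * q.2 = d}.ncard ≤ n + 1) →
    ({A | A ∈ X ∧ ∃ S : Finset (Set (ℝ × ℝ)),
      (∀ ℓ ∈ S, ∃ a b d : ℝ, (a ≠ 0 ∨ b ≠ 0) ∧ ℓ = {q | a * q.1 + b * q.2 = d}) ∧
      S.card ≤ n ∧ (∀ ℓ ∈ S, A ∉ ℓ) ∧ (∀ B ∈ X, B ≠ A → ∃ ℓ ∈ S, B ∈ ℓ) ∧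
      ({ℓ | ℓ ∈ S ∧ (1 / 2 + c) * n ≤ ({q | q ∈ X ∧ q ∈ ℓ}.ncard : ℝ)}.ncard : ℝ) <
        c * n}.ncard : ℝ) ≤ ε * X.card := by
  classical
  have hfilt : ∀ (X : Finset (ℝ × ℝ)) (n : ℕ) (c : ℝ) (S : Finset (Set (ℝ × ℝ))),
      (∀ ℓ ∈ S, IsLine ℓ) →
      {ℓ | ℓ ∈ S ∧ (1 / 2 + c) * n ≤ ({q | q ∈ X ∧ q ∈ ℓ}.ncard : ℝ)}.ncard =
        (S.filter fun ℓ => (1 / 2 + c) * n ≤ (kk Inc X ℓ : ℝ)).card := by
    intro X n c S hS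
    rw [← Set.ncard_coe_finset]
    congr 1
    ext ℓ
    simp only [Set.mem_ofPred_eq, Finset.coe_filter]
    constructor
    · rintro ⟨h1, h2⟩
      exact ⟨h1, by rwa [kk_inc (hS ℓ h1)]⟩
    · rintro ⟨h1, h2⟩
      exact ⟨h1, by rwa [kk_inc (hS ℓ h1)] at h2⟩
  obtain ⟨c, hc, hfew⟩ := few_nodes ε hε
  refine ⟨c, hc, ?_⟩
  intro n hn X hX hmax
  set P : ℝ × ℝ → Finset (Set (ℝ × ℝ)) → Prop := fun A S =>
    (∀ ℓ ∈ S, ∃ a b d : ℝ, (a ≠ 0 ∨ b ≠ 0) ∧ ℓ = {q | a * q.1 + b * q.2 = d}) ∧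
      S.card ≤ n ∧ (∀ ℓ ∈ S, A ∉ ℓ) ∧ (∀ B ∈ X, B ≠ A → ∃ ℓ ∈ S, B ∈ ℓ) ∧
      ({ℓ | ℓ ∈ S ∧ (1 / 2 + c) * n ≤ ({q | q ∈ X ∧ q ∈ ℓ}.ncard : ℝ)}.ncard : ℝ) < c * n
    with hP
  have hmax' : ∀ ℓ, kk Inc X ℓ ≤ n + 1 := by
    intro ℓ
    by_cases hℓ : IsLine ℓ
    · rw [kk_inc hℓ]
      obtain ⟨a, b, d, hab, rfl⟩ := hℓ
      exact hmax a b d hab
    · rw [kk_inc_zero hℓ]
      omega
  have hex : ∀ A, ∃ S, A ∈ X.filter (fun A => ∃ S, P A S) → P A S := by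
    intro A
    by_cases h : A ∈ X.filter (fun A => ∃ S, P A S)
    · obtain ⟨S, hS⟩ := (Finset.mem_filter.mp h).2
      exact ⟨S, fun _ => hS⟩
    · exact ⟨∅, fun h' => absurd h' h⟩
  choose S hS using hex
  have h1 := hfew n hn X hX hmax' (X.filter fun A => ∃ S, P A S) S
    (fun A hA => by
      obtain ⟨a1, a2, a3, a4, -⟩ := hS A hA
      exact cov_of (Finset.mem_filter.mp hA).1 a1 a2 a3 a4)
    (fun A hA => by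
      obtain ⟨a1, a2, a3, a4, a5⟩ := hS A hA
      rwa [hfilt X n c (S A) a1] at a5)
  have h2 : {A | A ∈ X ∧ ∃ S, P A S}.ncard = (X.filter fun A => ∃ S, P A S).card := by
    rw [← Set.ncard_coe_finset]
    congr 1
    ext A
    simp
  change ({A | A ∈ X ∧ ∃ S, P A S}.ncard : ℝ) ≤ _
  rw [h2]
  exact h1

end Pool.Agent.Results.MP_d899bc_co.RichLines
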