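import Pool.Agent.Work.MP_d899bc_co.TC.Bij
import Pool.Agent.Work.MP_d899bc_co.TC.Dir

set_option autoImplicit false

namespace Pool.Agent.Results.MP_d899bc_co.ThreeClasses

open Pool.Agent.Work.MP_d899bc_co

/-- Let `X` be a plane node set of degree `n` whose fundamental polynomials are products of `n`
lines of `𝓛`. Call a set of lines node-disjoint if no two of its lines meet in a node.
First part: weights on node-disjoint subsets of `𝓛` which cover every line of `𝓛` with total weight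
at least one have sum at least three, and if the sum is three, each of these subsets has exactly
one line with `k` nodes for `2 ≤ k ≤ n + 1`. Second part: if `𝓛` is split into three node-disjoint
classes, then `X` is a generalized principal lattice, and if moreover each class consists of
parallel lines, `X` is an affine image of the principal lattice of degree `n`. Third part: if all
but at most `n` lines of `𝓛` are in two node-disjoint classes, there are two maximal lines. -/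
theorem result (n : ℕ) (hn : 1 ≤ n) (X : Finset (ℝ × ℝ)) (hcard : X.card = (n + 2).choose 2)
    (hcorr : ∀ p : MvPolynomial (Fin 2) ℝ, p.totalDegree ≤ n →
      (∀ x ∈ X, MvPolynomial.eval ![x.1, x.2] p = 0) → p = 0)
    (𝓛 : Finset (Set (ℝ × ℝ)))
    (hlines : ∀ ℓ ∈ 𝓛, ∃ a b c : ℝ, (a ≠ 0 ∨ b ≠ 0) ∧ ℓ = {q | a * q.1 + b * q.2 = c})
    (hgc : ∀ A ∈ X, ∃ U ⊆ 𝓛, U.card = n ∧ (∀ ℓ ∈ U, A ∉ ℓ) ∧
      ∀ B ∈ X, B ≠ A → ∃ ℓ ∈ U, B ∈ ℓ) :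
    (∀ (r : ℕ) (I : Fin r → Finset (Set (ℝ × ℝ))) (w : Fin r → ℝ),
      (∀ s, I s ⊆ 𝓛) → (∀ s, 0 < w s) →
      (∀ s, ∀ ℓ ∈ I s, ∀ ℓ' ∈ I s, ∀ A ∈ X, A ∈ ℓ → A ∈ ℓ' → ℓ = ℓ') →
      (∀ ℓ ∈ 𝓛, 1 ≤ ∑ s, (I s : Set (Set (ℝ × ℝ))).indicator (fun _ => w s) ℓ) →
      3 ≤ ∑ s, w s ∧ (∑ s, w s = 3 → ∀ s, ∀ k, 2 ≤ k → k ≤ n + 1 →
        ∃! ℓ, ℓ ∈ I s ∧ {q | q ∈ X ∧ q ∈ ℓ}.ncard = k)) ∧
    (∀ κ : Set (ℝ × ℝ) → Fin 3,
      (∀ ℓ ∈ 𝓛, ∀ ℓ' ∈ 𝓛, κ ℓ = κ ℓ' → ∀ A ∈ X, A ∈ ℓ → A ∈ ℓ' → ℓ = ℓ') →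
      (∃ φ : ℝ × ℝ → Fin 3 → ℕ, Set.BijOn φ X {v | v 0 + v 1 + v 2 = n} ∧
        ∀ c : Fin 3, ∀ i < n, ∃ ℓ ∈ 𝓛, κ ℓ = c ∧ ∀ q ∈ X, q ∈ ℓ ↔ φ q c = i) ∧
      ((∀ ℓ ∈ 𝓛, ∀ ℓ' ∈ 𝓛, κ ℓ = κ ℓ' → ℓ = ℓ' ∨ Disjoint ℓ ℓ') →
        ∃ u v w : ℝ × ℝ, v.1 * w.2 ≠ v.2 * w.1 ∧
          ∀ q, q ∈ X ↔ ∃ i j : ℕ, i + j ≤ n ∧ q = u + (i : ℝ) • v + (j : ℝ) • w)) ∧
    (∀ κ : Set (ℝ × ℝ) → Fin 3,
      (∀ ℓ ∈ 𝓛, ∀ ℓ' ∈ 𝓛, κ ℓ = κ ℓ' → κ ℓ ≠ 2 → ∀ A ∈ X, A ∈ ℓ → A ∈ ℓ' → ℓ = ℓ') →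
      {ℓ | ℓ ∈ 𝓛 ∧ κ ℓ = 2}.ncard ≤ n →
      ∃ ℓ ∈ 𝓛, ∃ ℓ' ∈ 𝓛, ℓ ≠ ℓ' ∧ {q | q ∈ X ∧ q ∈ ℓ}.ncard = n + 1 ∧
        {q | q ∈ X ∧ q ∈ ℓ'}.ncard = n + 1) := by
  classical
  obtain ⟨t, U, D⟩ := exists_data n X hcorr 𝓛 hlines hgc
  have hline : ∀ ℓ ∈ 𝓛, ∀ ℓ' ∈ 𝓛, ∀ A C : ℝ × ℝ, A ≠ C → A ∈ ℓ → C ∈ ℓ → A ∈ ℓ' → C ∈ ℓ' →
      ℓ = ℓ' := fun ℓ hℓ ℓ' hℓ' A C hAC =>
    lines_eq ℓ ℓ' (hlines ℓ hℓ) (hlines ℓ' hℓ') A C hAC
  have hS : ∀ (ℓ : Set (ℝ × ℝ)) (C : ℝ × ℝ), C ∈ (X.filter fun q => q ∈ ℓ) ↔ C ∈ X ∧ C ∈ ℓ :=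
    fun ℓ C => Finset.mem_filter
  have hT : ∀ (A : ℝ × ℝ) (ℓ : Set (ℝ × ℝ)), ℓ ∈ (𝓛.filter fun ℓ => A ∈ ℓ) ↔ ℓ ∈ 𝓛 ∧ A ∈ ℓ :=
    fun A ℓ => Finset.mem_filter
  have hncard : ∀ ℓ : Set (ℝ × ℝ), {q | q ∈ X ∧ q ∈ ℓ}.ncard = (X.filter fun q => q ∈ ℓ).card := by
    intro ℓ
    rw [← Set.ncard_coe_finset]
    congr 1
    ext q
    simp
  have hcard' : 2 * X.card = (n + 1) * (n + 2) := by
    rw [hcard, Nat.choose_two_right, show n + 2 - 1 = n + 1 by omega]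
    have h : 2 ∣ (n + 2) * (n + 1) := by
      rw [mul_comm]
      exact (Nat.even_mul_succ_self (n + 1)).two_dvd
    rw [Nat.mul_div_cancel' h]
    ring
  have hproper : ∀ ℓ ∈ 𝓛, ∃ q : ℝ × ℝ, q ∉ ℓ := by
    intro ℓ hℓ
    obtain ⟨a, b, c, hab, rfl⟩ := hlines ℓ hℓ
    by_contra hcon
    push Not at hcon
    have h0 : a * 0 + b * 0 = c := hcon (0, 0)
    have h1 : a * 1 + b * 0 = c := hcon (1, 0)
    have h2 : a * 0 + b * 1 = c := hcon (0, 1)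
    rcases hab with h | h
    · exact h (by linarith)
    · exact h (by linarith)
  refine ⟨?_, ?_, ?_⟩
  · intro r I w hI hw hdis hcov
    have h := TC.fractional D hn hcard' hline hproper (fun ℓ => X.filter fun q => q ∈ ℓ) hS I w hI
      hw hdis (by
        intro ℓ hℓ
        refine (hcov ℓ hℓ).trans (le_of_eq ?_)
        refine Finset.sum_congr rfl fun s _ => ?_
        by_cases h : ℓ ∈ I s
        · rw [Set.indicator_of_mem (by exact_mod_cast h), if_pos h]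
        · rw [Set.indicator_of_notMem (by exact_mod_cast h), if_neg h])
    refine ⟨h.1, fun hs s k hk2 hkn => ?_⟩
    simp_rw [hncard]
    exact h.2 hs s k hk2 hkn
  · intro κ hκ
    obtain ⟨φ, hφ, hl⟩ := TC.bij D hn hcard' hline hproper (fun ℓ => X.filter fun q => q ∈ ℓ) hS κ hκ
    exact ⟨⟨φ, hφ, hl⟩, fun hpar => TC.directions n hn X 𝓛 hlines κ hpar φ hφ hl⟩
  · intro κ hκ hfew
    set E : Finset (Set (ℝ × ℝ)) := 𝓛.filter fun ℓ => κ ℓ = 2 with hE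
    have hEc : E.card ≤ n := by
      rw [← Set.ncard_coe_finset]
      refine le_trans (le_of_eq ?_) hfew
      congr 1
      ext ℓ
      simp [hE]
    -- a node on no line of the third class
    have hex : ∃ A ∈ X, ∀ ℓ ∈ E, A ∉ ℓ := by
      by_contra hcon
      push Not at hcon
      have h1 := TC.rest_ge D hproper E (Finset.filter_subset _ _) (by omega) ∅ (by
        intro x hx hxE
        obtain ⟨ℓ, hℓ, hxℓ⟩ := hcon x hx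
        exact absurd hxℓ (hxE ℓ hℓ))
      rw [Finset.card_empty, mul_zero] at h1
      have h2 : 0 < (n + 1 - E.card) * (n + 2 - E.card) :=
        Nat.mul_pos (by omega) (by omega)
      omega
    obtain ⟨A, hA, hAE⟩ := hex
    have hTA : (𝓛.filter fun ℓ => A ∈ ℓ).card ≤ 2 := by
      have h1 : ((𝓛.filter fun ℓ => A ∈ ℓ).image κ).card = (𝓛.filter fun ℓ => A ∈ ℓ).card := by
        refine Finset.card_image_of_injOn fun ℓ hℓ ℓ' hℓ' he => ?_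
        have g1 := Finset.mem_filter.mp (Finset.mem_coe.mp hℓ)
        have g2 := Finset.mem_filter.mp (Finset.mem_coe.mp hℓ')
        refine hκ ℓ g1.1 ℓ' g2.1 he (fun h2 => ?_) A hA g1.2 g2.2
        exact hAE ℓ (Finset.mem_filter.mpr ⟨g1.1, h2⟩) g1.2
      have h2 : (𝓛.filter fun ℓ => A ∈ ℓ).image κ ⊆ {0, 1} := by
        intro c hc
        rw [Finset.mem_image] at hc
        obtain ⟨ℓ, hℓ, rfl⟩ := hc
        have g1 := Finset.mem_filter.mp hℓ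
        have g2 : κ ℓ ≠ 2 := fun h2 => hAE ℓ (Finset.mem_filter.mpr ⟨g1.1, h2⟩) g1.2
        rw [Finset.mem_insert, Finset.mem_singleton]
        have h3 : ∀ c : Fin 3, c ≠ 2 → c = 0 ∨ c = 1 := by decide
        exact h3 _ g2
      have h3 := Finset.card_le_card h2
      rw [h1] at h3
      exact h3.trans Finset.card_le_two
    obtain ⟨ℓ, hℓ, ℓ', hℓ', hne, -, -, h1, h2⟩ := two_lines D hn hline
      (fun ℓ => X.filter fun q => q ∈ ℓ) hS (fun A => 𝓛.filter fun ℓ => A ∈ ℓ) hT A hA hTA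
    exact ⟨ℓ, hℓ, ℓ', hℓ', hne, by rw [hncard]; exact h1, by rw [hncard]; exact h2⟩

end Pool.Agent.Results.MP_d899bc_co.ThreeClasses
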